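import Mathlib

/-! Asymptotics of the `d`-th root of a polynomial, and solutions of `m F(u) = k F(a)`. -/

set_option autoImplicit false

open Polynomial Filter Topology

namespace Q247.Vis

theorem eval_div_pow_tendsto (R : ℝ[X]) (n : ℕ) (hR : R.natDegree ≤ n) :
    Tendsto (fun x : ℝ => R.eval x / x ^ n) atTop (𝓝 (R.coeff n)) := by
  have h1 : (fun x : ℝ => R.eval x / x ^ n) =
      fun x : ℝ => ∑ i ∈ Finset.range (n + 1), R.coeff i * (x ^ i / x ^ n) := by
    funext x
    rw [Polynomial.eval_eq_sum_range' (Nat.lt_succ_of_le hR), Finset.sum_div]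
    exact Finset.sum_congr rfl fun i _ => by rw [mul_div_assoc]
  rw [h1]
  have h2 : R.coeff n = ∑ i ∈ Finset.range (n + 1), R.coeff i * (if i = n then 1 else 0) := by
    rw [Finset.sum_eq_single n]
    · simp
    · intro i _ hi
      rw [if_neg hi, mul_zero]
    · intro h
      exact absurd (Finset.mem_range.2 (Nat.lt_succ_self n)) h
  rw [h2]
  refine tendsto_finsetSum _ fun i hi => ?_
  refine Tendsto.const_mul _ ?_
  by_cases hin : i = n
  · subst hin
    rw [if_pos rfl]
    refine tendsto_const_nhds.congr' ?_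
    filter_upwards [eventually_gt_atTop (0 : ℝ)] with x hx
    rw [div_self (pow_ne_zero _ hx.ne')]
  · rw [if_neg hin]
    rw [Finset.mem_range] at hi
    exact tendsto_pow_div_pow_atTop_zero (by omega)

/-- The `d`-th root of `F(x) / l`, `l` the leading coefficient. -/
noncomputable def root (F : ℤ[X]) (x : ℝ) : ℝ :=
  ((F.map (Int.castRingHom ℝ)).eval x / (F.leadingCoeff : ℝ)) ^ (1 / (F.natDegree : ℝ))

theorem root_sub_tendsto (F : ℤ[X]) (hF : 0 < F.leadingCoeff) (hd : 1 ≤ F.natDegree) :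
    ∃ s : ℝ, Tendsto (fun x : ℝ => root F x - x) atTop (𝓝 s) := by
  set d := F.natDegree with hddef
  set l : ℝ := (F.leadingCoeff : ℝ) with hl
  have hl0 : 0 < l := by rw [hl]; exact_mod_cast hF
  set p : ℝ := 1 / (d : ℝ) with hp
  have hd0 : (0 : ℝ) < d := by exact_mod_cast hd
  set P : ℝ[X] := F.map (Int.castRingHom ℝ) with hP
  set R : ℝ[X] := X * P - C l * X ^ (d + 1) with hR
  have hRdeg : R.natDegree ≤ d := by
    rw [natDegree_le_iff_coeff_eq_zero]
    intro i hi
    rw [hR, coeff_sub, coeff_C_mul, coeff_X_pow]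
    obtain ⟨j, rfl⟩ : ∃ j, i = j + 1 := ⟨i - 1, by omega⟩
    rw [coeff_X_mul]
    by_cases hj : j = d
    · subst hj
      rw [if_pos rfl, hP, coeff_map, hl]
      rw [hddef, Polynomial.coeff_natDegree]
      simp
    · rw [if_neg (by omega), hP, coeff_map, coeff_eq_zero_of_natDegree_lt (by omega)]
      simp
  set t : ℝ → ℝ := fun x => P.eval x / (l * x ^ d) - 1 with ht
  have hxt : Tendsto (fun x => x * t x) atTop (𝓝 (R.coeff d / l)) := by
    refine ((eval_div_pow_tendsto R d hRdeg).div_const l).congr' ?_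
    filter_upwards [eventually_gt_atTop (0 : ℝ)] with x hx
    rw [hR, ht]
    simp only [eval_sub, eval_mul, eval_X, eval_C, eval_pow]
    field_simp
    ring
  have ht0 : Tendsto t atTop (𝓝 0) := by
    have h1 := hxt.mul tendsto_inv_atTop_zero
    rw [mul_zero] at h1
    refine h1.congr' ?_
    filter_upwards [eventually_gt_atTop (0 : ℝ)] with x hx
    field_simp
  set g : ℝ → ℝ := fun y => (1 + y) ^ p with hg
  have hgd : HasDerivAt g p 0 := by
    have h1 : HasDerivAt (fun y : ℝ => 1 + y) 1 0 := by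
      simpa using (hasDerivAt_id (0 : ℝ)).const_add 1
    have h2 := h1.rpow_const (p := p) (Or.inl (by norm_num))
    simpa [hg] using h2
  have hds : Tendsto (fun x => dslope g 0 (t x)) atTop (𝓝 p) := by
    have h1 : ContinuousAt (dslope g 0) 0 := continuousAt_dslope_same.2 hgd.differentiableAt
    have h2 : dslope g 0 0 = p := by rw [dslope_same, hgd.deriv]
    have h3 := h1.tendsto.comp ht0
    rw [h2] at h3
    exact h3
  refine ⟨R.coeff d / l * p, (hxt.mul hds).congr' ?_⟩
  have hpos : ∀ᶠ x in atTop, -1 < t x := by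
    have := ht0.eventually (lt_mem_nhds (show (-1 : ℝ) < 0 by norm_num))
    exact this
  filter_upwards [eventually_gt_atTop (0 : ℝ), hpos] with x hx hx1
  have h1 := sub_smul_dslope g 0 (t x)
  rw [sub_zero, smul_eq_mul] at h1
  have h2 : root F x = x * g (t x) := by
    rw [root, hg, ← hddef, ← hl, ← hp, ← hP]
    have h3 : P.eval x / l = x ^ d * (1 + t x) := by
      rw [ht]
      field_simp
      ring
    rw [h3, Real.mul_rpow (by positivity) (by linarith), ← Real.rpow_natCast,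
      ← Real.rpow_mul hx.le, hp, mul_one_div_cancel hd0.ne', Real.rpow_one]
  have h4 : g 0 = 1 := by simp [hg]
  rw [h2]
  calc x * t x * dslope g 0 (t x) = x * (t x * dslope g 0 (t x)) := by ring
    _ = x * (g (t x) - g 0) := by rw [h1]
    _ = x * g (t x) - x := by rw [h4]; ring

/-- A root set with two elements is not mapped to itself by a contraction. -/
theorem no_contraction (P : ℂ[X]) (hP : P ≠ 0) (x₀ y₀ : ℂ) (hxy : x₀ ≠ y₀) (hx : P.eval x₀ = 0)
    (hy : P.eval y₀ = 0) (c w : ℂ) (hc0 : c ≠ 0) (hc1 : ‖c‖ < 1)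
    (h : ∀ x : ℂ, P.eval x = 0 → P.eval (c * x + w) = 0) : False := by
  classical
  set R : Finset ℂ := P.roots.toFinset with hR
  have hmem : ∀ x, x ∈ R ↔ P.eval x = 0 := by
    intro x
    rw [hR, Multiset.mem_toFinset, mem_roots hP, IsRoot.def]
  have hne : R.offDiag.Nonempty := ⟨(x₀, y₀), by
    rw [Finset.mem_offDiag]
    exact ⟨(hmem _).2 hx, (hmem _).2 hy, hxy⟩⟩
  obtain ⟨p, hp, hmin⟩ := Finset.exists_min_image R.offDiag (fun p => ‖p.1 - p.2‖) hne
  rw [Finset.mem_offDiag] at hp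
  have h1 : (c * p.1 + w, c * p.2 + w) ∈ R.offDiag := by
    rw [Finset.mem_offDiag]
    refine ⟨(hmem _).2 (h _ ((hmem _).1 hp.1)), (hmem _).2 (h _ ((hmem _).1 hp.2.1)), ?_⟩
    intro he
    apply hp.2.2
    have : c * (p.1 - p.2) = 0 := by linear_combination he
    rcases mul_eq_zero.1 this with h2 | h2
    · exact absurd h2 hc0
    · exact sub_eq_zero.1 h2
  have h2 := hmin _ h1
  simp only at h2
  have h3 : c * p.1 + w - (c * p.2 + w) = c * (p.1 - p.2) := by ring
  rw [h3, norm_mul] at h2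
  have h4 : 0 < ‖p.1 - p.2‖ := norm_pos_iff.2 (sub_ne_zero.2 hp.2.2)
  nlinarith

/-- `F(x) → ∞`. -/
theorem eval_tendsto (F : ℤ[X]) (hF : 0 < F.leadingCoeff) (hd : 1 ≤ F.natDegree) :
    Tendsto (fun x : ℝ => (F.map (Int.castRingHom ℝ)).eval x) atTop atTop := by
  apply Polynomial.tendsto_atTop_of_leadingCoeff_nonneg
  · rw [Polynomial.degree_map_eq_of_injective (RingHom.injective_int _)]
    exact natDegree_pos_iff_degree_pos.1 hd
  · rw [Polynomial.leadingCoeff_map_of_injective (RingHom.injective_int _)]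
    simp only [eq_intCast]
    exact_mod_cast hF.le

theorem map_eval_natCast (F : ℤ[X]) (a : ℕ) :
    (F.map (Int.castRingHom ℝ)).eval (a : ℝ) = ((F.eval (a : ℤ) : ℤ) : ℝ) := by
  have := Polynomial.eval_intCast_map (Int.castRingHom ℝ) F (a : ℤ)
  rwa [Int.cast_natCast] at this

/-- For `0 < k < m` and `h ≥ 1` there are only finitely many `a` such that both `a` and `a + h` are
solutions of `m F(u) = k F(a)`, `1 ≤ u < a`. -/
theorem finite_pairs (F : ℤ[X]) (hF : 0 < F.leadingCoeff)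
    (hroots : ∃ x y : ℂ, x ≠ y ∧ aeval x F = 0 ∧ aeval y F = 0) (k m : ℕ) (hk : 0 < k)
    (hkm : k < m) (h : ℕ) (hh : 1 ≤ h) (E : Set ℕ)
    (hE : ∀ a ∈ E, ∃ u : ℕ, (m : ℤ) * F.eval (u : ℤ) = k * F.eval (a : ℤ)) :
    {a | a ∈ E ∧ a + h ∈ E}.Finite := by
  classical
  by_contra hinf
  have hd : 1 ≤ F.natDegree := by
    obtain ⟨x, _, -, hx, -⟩ := hroots
    by_contra hcon
    have h0 : F.natDegree = 0 := by omega
    obtain ⟨c, hc⟩ : ∃ c, F = C c := ⟨_, eq_C_of_natDegree_eq_zero h0⟩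
    rw [hc] at hx hF
    rw [leadingCoeff_C] at hF
    rw [aeval_C] at hx
    simp only [algebraMap_int_eq, eq_intCast, Int.cast_eq_zero] at hx
    omega
  obtain ⟨s, hs⟩ := root_sub_tendsto F hF hd
  have hroot := hs.comp (tendsto_natCast_atTop_atTop (R := ℝ))
  have hevt := (eval_tendsto F hF hd).comp (tendsto_natCast_atTop_atTop (R := ℝ))
  set f : ℕ → ℝ := fun a => ((F.eval (a : ℤ) : ℤ) : ℝ) with hf
  have hfev : ∀ a : ℕ, (F.map (Int.castRingHom ℝ)).eval (a : ℝ) = f a := map_eval_natCast F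
  have hft : Tendsto f atTop atTop := by
    refine hevt.congr fun a => ?_
    exact hfev a
  set p : ℝ := 1 / (F.natDegree : ℝ) with hp
  have hd0 : (0 : ℝ) < F.natDegree := by exact_mod_cast hd
  have hp0 : 0 < p := by rw [hp]; positivity
  set r : ℝ := (k : ℝ) / m with hr
  have hm0 : (0 : ℝ) < m := by exact_mod_cast (hk.trans hkm)
  have hk0 : (0 : ℝ) < k := by exact_mod_cast hk
  have hr0 : 0 < r := by rw [hr]; positivity
  have hr1 : r < 1 := by
    rw [hr, div_lt_one hm0]; exact_mod_cast hkm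
  set α : ℝ := r ^ p with hα
  have hα0 : 0 < α := by rw [hα]; positivity
  have hα1 : α < 1 := Real.rpow_lt_one hr0.le hr1 hp0
  have hl0 : (0 : ℝ) < F.leadingCoeff := by exact_mod_cast hF
  choose! u hu using hE
  have hfu : ∀ a ∈ E, f (u a) = r * f a := by
    intro a ha
    have h1 := hu a ha
    have h2 : (m : ℝ) * f (u a) = k * f a := by
      simp only [hf]; exact_mod_cast h1
    rw [hr]
    field_simp
    linarith
  -- `u a → ∞`
  have hut : Tendsto u (atTop ⊓ 𝓟 E) atTop := by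
    rw [tendsto_atTop]
    intro B
    have h1 : ∃ M : ℝ, ∀ i < B, f i ≤ M := by
      refine ⟨∑ i ∈ Finset.range B, |f i|, fun i hi => ?_⟩
      exact (le_abs_self _).trans (Finset.single_le_sum (f := fun i => |f i|)
        (fun j _ => abs_nonneg _) (Finset.mem_range.2 hi))
    obtain ⟨M, hM⟩ := h1
    have h2 : ∀ᶠ a in atTop, M < r * f a :=
      (hft.const_mul_atTop hr0).eventually_gt_atTop M
    rw [eventually_inf_principal]
    filter_upwards [h2] with a ha haE
    by_contra hcon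
    push Not at hcon
    have := hM _ hcon
    rw [hfu a haE] at this
    linarith
  -- `u a - α a → τ`
  have hlim : Tendsto (fun a => (u a : ℝ) - α * a) (atTop ⊓ 𝓟 E) (𝓝 (-s + α * s)) := by
    have h1 : Tendsto (fun a : ℕ => root F (a : ℝ) - a) (atTop ⊓ 𝓟 E) (𝓝 s) :=
      hroot.mono_left inf_le_left
    have h2 : Tendsto (fun a : ℕ => root F (u a : ℝ) - u a) (atTop ⊓ 𝓟 E) (𝓝 s) :=
      hroot.comp hut
    have h3 := (h2.neg).add (h1.const_mul α)
    refine h3.congr' ?_
    have hpos : ∀ᶠ a in atTop, 0 < f a := hft.eventually_gt_atTop 0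
    rw [EventuallyEq, eventually_inf_principal]
    filter_upwards [hpos] with a ha haE
    have h4 : root F (u a : ℝ) = α * root F (a : ℝ) := by
      rw [root, root, hfev, hfev, hfu a haE, ← hp, hα, mul_div_assoc,
        Real.mul_rpow hr0.le (by positivity)]
    rw [h4]
    ring
  -- pairs
  set E' : Set ℕ := {a | a ∈ E ∧ a + h ∈ E} with hE'
  have hne : (atTop ⊓ 𝓟 E' : Filter ℕ).NeBot := by
    rw [← Nat.cofinite_eq_atTop]
    exact (Set.infinite_coe_iff.2 hinf |> fun _ => by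
      rw [← frequently_mem_iff_neBot, Nat.cofinite_eq_atTop, Nat.frequently_atTop_iff_infinite]
      exact hinf)
  have hl1 : Tendsto (fun a => (u a : ℝ) - α * a) (atTop ⊓ 𝓟 E') (𝓝 (-s + α * s)) :=
    hlim.mono_left (inf_le_inf_left _ (principal_mono.2 fun a ha => ha.1))
  have hl2 : Tendsto (fun a => (u (a + h) : ℝ) - α * (a + h : ℕ)) (atTop ⊓ 𝓟 E')
      (𝓝 (-s + α * s)) := by
    refine hlim.comp (f := fun a => a + h) ?_
    refine Tendsto.inf (tendsto_add_atTop_nat h) ?_
    exact tendsto_principal_principal.2 fun a ha => ha.2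
  have hl3 : Tendsto (fun a => (((u (a + h) : ℤ) - (u a : ℤ) : ℤ) : ℝ)) (atTop ⊓ 𝓟 E')
      (𝓝 (α * h)) := by
    have h1 := (hl2.sub hl1).add_const (α * h)
    rw [sub_self, zero_add] at h1
    refine h1.congr fun a => ?_
    push_cast
    ring
  obtain ⟨v, hv⟩ : ∃ v : ℤ, (v : ℝ) = α * h := by
    have h1 := Int.isClosedEmbedding_coe_real.isClosed_range.mem_of_tendsto hl3
      (Eventually.of_forall fun a => Set.mem_range_self _)
    exact h1
  have hh0 : (0 : ℝ) < h := by exact_mod_cast hh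
  have hl4 : Tendsto (fun a => (((h : ℤ) * u a - v * a : ℤ) : ℝ)) (atTop ⊓ 𝓟 E')
      (𝓝 (h * (-s + α * s))) := by
    refine (hl1.const_mul (h : ℝ)).congr fun a => ?_
    push_cast
    rw [hv]
    ring
  obtain ⟨w, hw⟩ : ∃ w : ℤ, (w : ℝ) = h * (-s + α * s) := by
    have h1 := Int.isClosedEmbedding_coe_real.isClosed_range.mem_of_tendsto hl4
      (Eventually.of_forall fun a => Set.mem_range_self _)
    exact h1
  rw [← hw] at hl4
  have hev : ∀ᶠ a in (atTop ⊓ 𝓟 E'), (h : ℤ) * u a - v * a = w := by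
    have h1 := (Int.isClosedEmbedding_coe_real.isInducing.tendsto_nhds_iff).2 hl4
    rw [nhds_discrete, tendsto_pure] at h1
    exact h1
  have hev2 : ∀ᶠ a in (atTop ⊓ 𝓟 E'), a ∈ E' :=
    eventually_inf_principal.2 (Eventually.of_forall fun a ha => ha)
  have hfreq : ∃ᶠ a in (atTop : Filter ℕ), (h : ℤ) * u a - v * a = w ∧ a ∈ E' := by
    have h1 : ∃ᶠ a in (atTop ⊓ 𝓟 E'), (h : ℤ) * u a - v * a = w ∧ a ∈ E' :=
      (hev.and hev2).frequently
    exact h1.filter_mono inf_le_left
  rw [Nat.frequently_atTop_iff_infinite] at hfreq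
  -- the polynomial identity
  set P : ℂ[X] := F.map (Int.castRingHom ℂ) with hP
  have hPev : ∀ z : ℤ, P.eval (z : ℂ) = ((F.eval z : ℤ) : ℂ) := by
    intro z
    exact Polynomial.eval_intCast_map (Int.castRingHom ℂ) F z
  have hhC : (h : ℂ) ≠ 0 := by exact_mod_cast (by omega : h ≠ 0)
  set Q : ℂ[X] := C (m : ℂ) * P.comp (C ((v : ℂ) / h) * X + C ((w : ℂ) / h)) - C (k : ℂ) * P
    with hQ
  have hQ0 : Q = 0 := by
    refine eq_zero_of_infinite_isRoot Q ?_
    refine (hfreq.image (Nat.cast_injective (R := ℂ)).injOn).mono ?_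
    rintro _ ⟨a, ⟨ha1, ha2⟩, rfl⟩
    show Q.IsRoot (a : ℂ)
    rw [IsRoot.def, hQ]
    simp only [eval_sub, eval_mul, eval_C, eval_comp, eval_add, eval_X]
    have h1 : (v : ℂ) / h * a + (w : ℂ) / h = ((u a : ℤ) : ℂ) := by
      have h2 : (w : ℂ) = (h : ℂ) * u a - v * a := by
        rw [← ha1]; push_cast; ring
      rw [h2]
      field_simp
      push_cast
      ring
    have h3 : P.eval (a : ℂ) = ((F.eval (a : ℤ) : ℤ) : ℂ) := by
      have := hPev (a : ℤ)
      rwa [Int.cast_natCast] at this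
    rw [h1, hPev, h3]
    have h4 := hu a ha2.1
    have h5 : ((m : ℤ) : ℂ) * ((F.eval ((u a : ℕ) : ℤ) : ℤ) : ℂ) =
      ((k : ℤ) : ℂ) * ((F.eval (a : ℤ) : ℤ) : ℂ) := by exact_mod_cast h4
    push_cast at h5 ⊢
    rw [h5]
    ring
  have hP0 : P ≠ 0 := by
    rw [hP, Ne, Polynomial.map_eq_zero_iff (RingHom.injective_int _)]
    rintro rfl
    simp at hF
  obtain ⟨x₀, y₀, hxy, hx, hy⟩ := hroots
  have haev : ∀ z : ℂ, P.eval z = aeval z F := by
    intro z
    rw [hP, eval_map, aeval_def]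
    rfl
  refine no_contraction P hP0 x₀ y₀ hxy ((haev _).trans hx) ((haev _).trans hy)
    ((v : ℂ) / h) ((w : ℂ) / h) ?_ ?_ ?_
  · have : (v : ℂ) ≠ 0 := by
      have h1 : (v : ℝ) ≠ 0 := by rw [hv]; positivity
      exact_mod_cast h1
    exact div_ne_zero this hhC
  · have h1 : (v : ℂ) / h = ((α : ℝ) : ℂ) := by
      rw [div_eq_iff hhC]
      have : (v : ℂ) = ((v : ℝ) : ℂ) := by push_cast; rfl
      rw [this, hv]
      push_cast
      rfl
    rw [h1, Complex.norm_real, Real.norm_eq_abs, abs_of_pos hα0]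
    exact hα1
  · intro x hx
    have h1 : Q.eval x = 0 := by rw [hQ0, eval_zero]
    rw [hQ] at h1
    simp only [eval_sub, eval_mul, eval_C, eval_comp, eval_add, eval_X] at h1
    rw [hx, mul_zero, sub_zero] at h1
    have hmC : (m : ℂ) ≠ 0 := by exact_mod_cast (by omega : m ≠ 0)
    exact (mul_eq_zero.1 h1).resolve_left hmC

/-- A set of natural numbers without infinitely many pairs at any given distance has density
zero. -/
theorem density_zero (E : Set ℕ) (hE : ∀ h : ℕ, 1 ≤ h → {a | a ∈ E ∧ a + h ∈ E}.Finite)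
    (ε : ℝ) (hε : 0 < ε) : ∃ N₀ : ℕ, ∀ N ≥ N₀, (Nat.card {a | a ∈ E ∧ a ∈ Finset.Icc 1 N} : ℝ) ≤ ε * N := by
  classical
  obtain ⟨H, hH⟩ := exists_nat_gt (2 / ε)
  have hH0 : 0 < H := by
    have : (0 : ℝ) < H := lt_trans (by positivity) hH
    exact_mod_cast this
  obtain ⟨A, hA⟩ : ∃ A : ℕ, ∀ h ∈ Finset.Icc 1 H, ∀ a ∈ E, a + h ∈ E → a ≤ A := by
    have h1 : (⋃ h ∈ Finset.Icc 1 H, {a | a ∈ E ∧ a + h ∈ E}).Finite := by
      refine Set.Finite.biUnion (Finset.finite_toSet _) fun h hh => ?_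
      exact hE h (Finset.mem_Icc.1 (by simpa using hh)).1
    obtain ⟨A, hA⟩ := h1.bddAbove
    refine ⟨A, fun h hh a ha1 ha2 => hA ?_⟩
    exact Set.mem_biUnion hh ⟨ha1, ha2⟩
  obtain ⟨N₀, hN₀⟩ := exists_nat_gt (2 * (A + 1) / ε)
  refine ⟨N₀, fun N hN => ?_⟩
  have hcard : Nat.card {a | a ∈ E ∧ a ∈ Finset.Icc 1 N} =
      ((Finset.Icc 1 N).filter (fun a => a ∈ E)).card := by
    rw [Nat.card_coe_set_eq, ← Set.ncard_coe_finset]
    congr 1
    ext a
    simp only [Set.mem_ofPred_eq, Finset.coe_filter]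
    tauto
  rw [hcard]
  have h1 : ((Finset.Icc 1 N).filter (fun a => a ∈ E)) ⊆
      Finset.Icc 1 A ∪ ((Finset.Icc (A + 1) N).filter (fun a => a ∈ E)) := by
    intro a ha
    rw [Finset.mem_filter, Finset.mem_Icc] at ha
    rw [Finset.mem_union, Finset.mem_Icc, Finset.mem_filter, Finset.mem_Icc]
    by_cases h : a ≤ A
    · exact Or.inl ⟨ha.1.1, h⟩
    · exact Or.inr ⟨⟨by omega, ha.1.2⟩, ha.2⟩
  have h2 : ((Finset.Icc (A + 1) N).filter (fun a => a ∈ E)).card ≤ N / H + 1 := by
    have h3 : ((Finset.Icc (A + 1) N).filter (fun a => a ∈ E)).card ≤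
        (Finset.range (N / H + 1)).card := by
      refine Finset.card_le_card_of_injOn (fun a => a / H) ?_ ?_
      · intro a ha
        rw [Finset.mem_coe, Finset.mem_filter, Finset.mem_Icc] at ha
        rw [Finset.mem_coe, Finset.mem_range]
        exact Nat.lt_succ_of_le (Nat.div_le_div_right ha.1.2)
      · have key : ∀ a b : ℕ, A + 1 ≤ a → a ∈ E → b ∈ E → a < b → a / H ≠ b / H := by
          intro a b ha haE hbE hab he
          have h4 : b - a ∈ Finset.Icc 1 H := by
            rw [Finset.mem_Icc]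
            have h5 := Nat.div_add_mod a H
            have h6 := Nat.div_add_mod b H
            have h7 := Nat.mod_lt a hH0
            have h8 := Nat.mod_lt b hH0
            rw [he] at h5
            omega
          have h5 := hA (b - a) h4 a haE (by rwa [show a + (b - a) = b by omega])
          omega
        intro a ha b hb he
        rw [Finset.mem_coe, Finset.mem_filter, Finset.mem_Icc] at ha hb
        by_contra hne
        rcases Nat.lt_or_gt_of_ne hne with h4 | h4
        · exact key a b ha.1.1 ha.2 hb.2 h4 he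
        · exact key b a hb.1.1 hb.2 ha.2 h4 he.symm
    rwa [Finset.card_range] at h3
  have h3 : ((Finset.Icc 1 N).filter (fun a => a ∈ E)).card ≤ A + (N / H + 1) := by
    refine (Finset.card_le_card h1).trans ((Finset.card_union_le _ _).trans ?_)
    rw [Nat.card_Icc]
    omega
  have h4 : (((Finset.Icc 1 N).filter (fun a => a ∈ E)).card : ℝ) ≤ A + ((N : ℝ) / H + 1) := by
    have h5 : ((N / H : ℕ) : ℝ) ≤ (N : ℝ) / H := Nat.cast_div_le
    calc (((Finset.Icc 1 N).filter (fun a => a ∈ E)).card : ℝ) ≤ ((A + (N / H + 1) : ℕ) : ℝ) := by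
          exact_mod_cast h3
      _ ≤ A + ((N : ℝ) / H + 1) := by push_cast; linarith
  have hNr : (N₀ : ℝ) ≤ N := by exact_mod_cast hN
  have h5 : 2 * ((A : ℝ) + 1) < ε * N := by
    rw [div_lt_iff₀ hε] at hN₀
    nlinarith
  have h6 : (N : ℝ) / H ≤ ε * N / 2 := by
    have hH' : (0 : ℝ) < H := by exact_mod_cast hH0
    rw [div_le_iff₀ hH']
    rw [div_lt_iff₀ hε] at hH
    have : (0 : ℝ) ≤ N := Nat.cast_nonneg _
    nlinarith
  linarith

end Q247.Vis
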