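import Pool.Agent.Q247.Vis.Vander
import Pool.Agent.Q247.Vis.Affine

/-! Counting pairs `(a, h)` such that `m ∣ h`, `m ∣ F(a)` and `m F(u) = k F(a)` for some `u` and
`0 < k < m`. -/

set_option autoImplicit false

open Polynomial Filter Topology

namespace Q247.Vis

/-- For large `a` we have `F(a) > 0` and `F(u) < F(a)` for all natural numbers `u < a`. -/
theorem eventually_increasing (F : ℤ[X]) (hF : 0 < F.leadingCoeff) (hd : 1 ≤ F.natDegree) :
    ∃ A : ℕ, ∀ a ≥ A, 0 < F.eval (a : ℤ) ∧ ∀ u < a, F.eval (u : ℤ) < F.eval (a : ℤ) := by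
  obtain ⟨s, hs⟩ := root_sub_tendsto F hF hd
  have hroot := hs.comp (tendsto_natCast_atTop_atTop (R := ℝ))
  have hevt := (eval_tendsto F hF hd).comp (tendsto_natCast_atTop_atTop (R := ℝ))
  set f : ℕ → ℝ := fun a => ((F.eval (a : ℤ) : ℤ) : ℝ) with hf
  have hfev : ∀ a : ℕ, (F.map (Int.castRingHom ℝ)).eval (a : ℝ) = f a := map_eval_natCast F
  have hft : Tendsto f atTop atTop := by
    refine hevt.congr fun a => ?_
    exact hfev a
  have hl0 : (0 : ℝ) < F.leadingCoeff := by exact_mod_cast hF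
  have hd0 : (0 : ℝ) < F.natDegree := by exact_mod_cast hd
  have h1 : ∀ᶠ a : ℕ in atTop, |root F (a : ℝ) - a - s| < 1 / 3 := by
    have := (Metric.tendsto_nhds.1 hroot) (1 / 3) (by norm_num)
    filter_upwards [this] with a ha
    rw [Real.dist_eq] at ha
    exact ha
  obtain ⟨U, hU⟩ := eventually_atTop.1 (h1.and (hft.eventually_gt_atTop 0))
  obtain ⟨M, hM⟩ : ∃ M : ℝ, ∀ i < U, f i ≤ M := by
    refine ⟨∑ i ∈ Finset.range U, |f i|, fun i hi => ?_⟩
    exact (le_abs_self _).trans (Finset.single_le_sum (f := fun i => |f i|)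
      (fun j _ => abs_nonneg _) (Finset.mem_range.2 hi))
  obtain ⟨A, hA⟩ := eventually_atTop.1 ((hft.eventually_gt_atTop M).and
    ((eventually_ge_atTop U)))
  refine ⟨A, fun a ha => ?_⟩
  obtain ⟨ha1, ha2⟩ := hA a ha
  obtain ⟨ha3, ha4⟩ := hU a ha2
  refine ⟨by simp only [hf] at ha4; exact_mod_cast ha4, fun u hu => ?_⟩
  have hgoal : f u < f a := by
    rcases lt_or_ge u U with h | h
    · exact (hM u h).trans_lt ha1
    · obtain ⟨hu1, hu2⟩ := hU u h
      by_contra hcon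
      push Not at hcon
      have h2 : root F (a : ℝ) ≤ root F (u : ℝ) := by
        rw [root, root, hfev, hfev]
        refine Real.rpow_le_rpow (by positivity) ?_ (by positivity)
        exact div_le_div_of_nonneg_right hcon hl0.le
      rw [abs_lt] at ha3 hu1
      have h3 : (u : ℝ) + 1 ≤ a := by exact_mod_cast hu
      linarith [ha3.1, hu1.2]
  simp only [hf] at hgoal
  exact_mod_cast hgoal

/-- The exceptional set attached to `k / m`. -/
def EE (F : ℤ[X]) (q : ℕ × ℕ) : Set ℕ :=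
  {a | ∃ u : ℕ, (q.2 : ℤ) * F.eval (u : ℤ) = q.1 * F.eval (a : ℤ)}

/-- If `0 < F(u) < F(a)` and `F(a) ∣ h F(u)`, `h > 0`, then there are `0 < k < m`, `m ∣ h`,
`m ∣ F(a)`, `m F(u) = k F(a)`. -/
theorem exists_ratio (x y : ℤ) (hy : 0 < y) (hxy : y < x) (h : ℕ) (hdvd : x ∣ h * y) :
    ∃ k m : ℕ, 0 < k ∧ k < m ∧ m ∣ h ∧ (m : ℤ) ∣ x ∧ (m : ℤ) * y = k * x := by
  have hx : 0 < x := hy.trans hxy
  lift x to ℕ using hx.le
  lift y to ℕ using hy.le
  norm_cast at hx hy hxy hdvd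
  set g := Nat.gcd x y with hg
  have hg0 : 0 < g := Nat.gcd_pos_of_pos_left _ hx
  obtain ⟨m, hm⟩ := Nat.gcd_dvd_left x y
  obtain ⟨k, hk⟩ := Nat.gcd_dvd_right x y
  rw [← hg] at hm hk
  have hcop : Nat.Coprime m k := by
    have := Nat.coprime_div_gcd_div_gcd (m := x) (n := y) hg0
    rw [← hg] at this
    rwa [hm, Nat.mul_div_cancel_left _ hg0, hk, Nat.mul_div_cancel_left _ hg0] at this
  refine ⟨k, m, ?_, ?_, ?_, ?_, ?_⟩
  · rcases Nat.eq_zero_or_pos k with h0 | h0
    · rw [h0, mul_zero] at hk; omega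
    · exact h0
  · rw [hm, hk] at hxy
    exact lt_of_mul_lt_mul_left hxy (Nat.zero_le g)
  · have h1 : g * m ∣ g * (h * k) := by
      rw [← hm]
      have : g * (h * k) = h * y := by rw [hk]; ring
      rwa [this]
    have h2 : m ∣ h * k := Nat.dvd_of_mul_dvd_mul_left hg0 h1
    exact hcop.dvd_of_dvd_mul_right h2
  · exact_mod_cast Dvd.intro_left g hm.symm
  · have : m * y = k * x := by
      calc m * y = m * (g * k) := by rw [← hk]
        _ = k * (g * m) := by ring
        _ = k * x := by rw [← hm]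
    exact_mod_cast this

open Classical in
/-- The counting theorem. -/
theorem count_main (F : ℤ[X]) (hF : 0 < F.leadingCoeff)
    (hroots : ∃ x y : ℂ, x ≠ y ∧ aeval x F = 0 ∧ aeval y F = 0) (A : ℕ)
    (V : ℕ → ℕ → Prop)
    (hV : ∀ a h : ℕ, A ≤ a → 1 ≤ h → V a h → ∃ k m : ℕ, 0 < k ∧ k < m ∧ m ∣ h ∧
      (m : ℤ) ∣ F.eval (a : ℤ) ∧ a ∈ EE F (k, m)) (ε : ℝ) (hε : 0 < ε) :
    ∃ N₀ : ℕ, ∀ N ≥ N₀,
      (((Finset.Icc 1 N ×ˢ Finset.Icc 1 N).filter (fun p => V p.1 p.2)).card : ℝ) ≤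
        ε * (N : ℝ) ^ 2 := by
  obtain ⟨C, δ, hC, hδ, hcount⟩ := count_real F hF
  -- choice of `M`
  have hsum : Summable (fun n : ℕ => (n : ℝ) ^ (-1 - δ)) := by
    rw [Real.summable_nat_rpow]; linarith
  obtain ⟨s, hs⟩ := summable_iff_vanishing_norm.1 hsum (ε / (4 * C)) (by positivity)
  obtain ⟨M₂, hM₂⟩ := exists_nat_gt (4 * C / ε)
  set M := max (s.sup id) M₂ with hM
  have hMs : ∀ N, Disjoint (Finset.Icc (M + 1) N) s := by
    intro N
    rw [Finset.disjoint_left]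
    intro x hx hxs
    rw [Finset.mem_Icc] at hx
    have h1 : x ≤ s.sup id := Finset.le_sup (f := id) hxs
    have h2 : s.sup id ≤ M := le_max_left _ _
    omega
  have hM2 : 4 * C / ε < M + 1 := by
    have : (M₂ : ℝ) ≤ M := by exact_mod_cast le_max_right _ _
    linarith
  -- the small `m`
  set Q : Finset (ℕ × ℕ) := (Finset.Icc 1 M ×ˢ Finset.Icc 1 M).filter (fun q => q.1 < q.2) with hQ
  have hQ0 : (0 : ℝ) < Q.card + 1 := by positivity
  have hdens : ∀ q ∈ Q, ∃ N₀ : ℕ, ∀ N ≥ N₀,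
      (((Finset.Icc 1 N).filter (fun a => a ∈ EE F q)).card : ℝ) ≤
        (ε / (4 * (Q.card + 1))) * N := by
    intro q hq
    rw [hQ, Finset.mem_filter, Finset.mem_product, Finset.mem_Icc, Finset.mem_Icc] at hq
    obtain ⟨N₀, hN₀⟩ := density_zero (EE F q)
      (fun h hh => finite_pairs F hF hroots q.1 q.2 hq.1.1.1 hq.2 h hh (EE F q) (fun a ha => ha))
      (ε / (4 * (Q.card + 1))) (by positivity)
    refine ⟨N₀, fun N hN => ?_⟩
    have h1 := hN₀ N hN
    have hcard : Nat.card {a | a ∈ EE F q ∧ a ∈ Finset.Icc 1 N} =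
        ((Finset.Icc 1 N).filter (fun a => a ∈ EE F q)).card := by
      rw [Nat.card_coe_set_eq, ← Set.ncard_coe_finset]
      congr 1
      ext a
      simp only [Set.mem_ofPred_eq, Finset.coe_filter]
      tauto
    rwa [hcard] at h1
  choose! N₁ hN₁ using hdens
  obtain ⟨N₃, hN₃⟩ := exists_nat_gt (4 * (A : ℝ) / ε)
  refine ⟨max N₃ (Q.sup N₁), fun N hN => ?_⟩
  have hNA : (4 * (A : ℝ) / ε) < N := by
    have : (N₃ : ℝ) ≤ N := by exact_mod_cast le_trans (le_max_left _ _) hN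
    linarith
  have hNQ : ∀ q ∈ Q, N₁ q ≤ N := fun q hq =>
    (Finset.le_sup (f := N₁) hq).trans (le_trans (le_max_right _ _) hN)
  have hN0 : (0 : ℝ) ≤ N := Nat.cast_nonneg _
  set S0 : Finset (ℕ × ℕ) := Finset.Icc 1 A ×ˢ Finset.Icc 1 N with hS0
  set S1 : Finset (ℕ × ℕ) := Q.biUnion fun q =>
    ((Finset.Icc 1 N).filter (fun a => a ∈ EE F q)) ×ˢ Finset.Icc 1 N with hS1
  set S2 : Finset (ℕ × ℕ) := (Finset.Icc (M + 1) N).biUnion fun m =>
    ((Finset.Icc 1 N).filter (fun a : ℕ => (m : ℤ) ∣ F.eval (a : ℤ))) ×ˢ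
      ((Finset.Icc 1 N).filter (fun h : ℕ => m ∣ h)) with hS2
  have hsub : ((Finset.Icc 1 N ×ˢ Finset.Icc 1 N).filter (fun p => V p.1 p.2)) ⊆
      S0 ∪ (S1 ∪ S2) := by
    intro p hp
    rw [Finset.mem_filter, Finset.mem_product, Finset.mem_Icc, Finset.mem_Icc] at hp
    obtain ⟨⟨hp1, hp2⟩, hpV⟩ := hp
    rw [Finset.mem_union, Finset.mem_union]
    rcases lt_or_ge p.1 A with hA | hA
    · left
      rw [hS0, Finset.mem_product, Finset.mem_Icc, Finset.mem_Icc]
      exact ⟨⟨hp1.1, hA.le⟩, hp2⟩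
    · right
      obtain ⟨k, m, hk, hkm, hmh, hmF, hE⟩ := hV _ _ hA hp2.1 hpV
      rcases le_or_gt m M with hmM | hmM
      · left
        rw [hS1, Finset.mem_biUnion]
        refine ⟨(k, m), ?_, ?_⟩
        · rw [hQ, Finset.mem_filter, Finset.mem_product, Finset.mem_Icc, Finset.mem_Icc]
          exact ⟨⟨⟨hk, by omega⟩, by omega, hmM⟩, hkm⟩
        · rw [Finset.mem_product, Finset.mem_filter, Finset.mem_Icc, Finset.mem_Icc]
          exact ⟨⟨hp1, hE⟩, hp2⟩
      · right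
        rw [hS2, Finset.mem_biUnion]
        have hmN : m ≤ N := (Nat.le_of_dvd (by omega) hmh).trans hp2.2
        refine ⟨m, ?_, ?_⟩
        · rw [Finset.mem_Icc]; exact ⟨hmM, hmN⟩
        · rw [Finset.mem_product, Finset.mem_filter, Finset.mem_filter, Finset.mem_Icc,
            Finset.mem_Icc]
          exact ⟨⟨hp1, hmF⟩, hp2, hmh⟩
  have hc0 : (S0.card : ℝ) ≤ ε / 4 * (N : ℝ) ^ 2 := by
    rw [hS0, Finset.card_product, Nat.card_Icc, Nat.card_Icc]
    simp only [Nat.add_sub_cancel]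
    push_cast
    rw [div_lt_iff₀ hε] at hNA
    nlinarith
  have hc1 : (S1.card : ℝ) ≤ ε / 4 * (N : ℝ) ^ 2 := by
    have h1 : (S1.card : ℝ) ≤ ∑ q ∈ Q, (ε / (4 * (Q.card + 1))) * (N : ℝ) * N := by
      have h2 : S1.card ≤ ∑ q ∈ Q, ((Finset.Icc 1 N).filter (fun a => a ∈ EE F q)).card * N := by
        refine Finset.card_biUnion_le.trans (Finset.sum_le_sum fun q _ => ?_)
        rw [Finset.card_product, Nat.card_Icc, Nat.add_sub_cancel]
      calc (S1.card : ℝ) ≤ ((∑ q ∈ Q,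
            ((Finset.Icc 1 N).filter (fun a => a ∈ EE F q)).card * N : ℕ) : ℝ) := by
            exact_mod_cast h2
        _ = ∑ q ∈ Q, (((Finset.Icc 1 N).filter (fun a => a ∈ EE F q)).card : ℝ) * N := by
            push_cast; rfl
        _ ≤ _ := Finset.sum_le_sum fun q hq =>
            mul_le_mul_of_nonneg_right (hN₁ q hq N (hNQ q hq)) hN0
    refine h1.trans ?_
    rw [Finset.sum_const, nsmul_eq_mul]
    have h3 : (Q.card : ℝ) * (ε / (4 * (Q.card + 1)) * N * N) =
        (Q.card / (Q.card + 1)) * (ε / 4 * (N : ℝ) ^ 2) := by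
      field_simp
    rw [h3]
    have h4 : (Q.card : ℝ) / (Q.card + 1) ≤ 1 := by
      rw [div_le_one hQ0]; linarith
    exact mul_le_of_le_one_left (by positivity) h4
  have hc2 : (S2.card : ℝ) ≤ ε / 2 * (N : ℝ) ^ 2 := by
    have h1 : (S2.card : ℝ) ≤ ∑ m ∈ Finset.Icc (M + 1) N,
        (C * (N : ℝ) ^ 2 * (m : ℝ) ^ (-1 - δ) + C * N * (1 / (M + 1))) := by
      have h2 : S2.card ≤ ∑ m ∈ Finset.Icc (M + 1) N,
          ((Finset.Icc 1 N).filter (fun a : ℕ => (m : ℤ) ∣ F.eval (a : ℤ))).card *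
          ((Finset.Icc 1 N).filter (fun h : ℕ => m ∣ h)).card := by
        refine Finset.card_biUnion_le.trans (Finset.sum_le_sum fun q _ => ?_)
        rw [Finset.card_product]
      calc (S2.card : ℝ) ≤ ((∑ m ∈ Finset.Icc (M + 1) N,
          ((Finset.Icc 1 N).filter (fun a : ℕ => (m : ℤ) ∣ F.eval (a : ℤ))).card *
          ((Finset.Icc 1 N).filter (fun h : ℕ => m ∣ h)).card : ℕ) : ℝ) := by
            exact_mod_cast h2
        _ = ∑ m ∈ Finset.Icc (M + 1) N,
          (((Finset.Icc 1 N).filter (fun a : ℕ => (m : ℤ) ∣ F.eval (a : ℤ))).card : ℝ) *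
          (((Finset.Icc 1 N).filter (fun h : ℕ => m ∣ h)).card : ℝ) := by
            push_cast; rfl
        _ ≤ _ := by
          refine Finset.sum_le_sum fun m hm => ?_
          rw [Finset.mem_Icc] at hm
          have hm1 : 1 ≤ m := by omega
          have hm0 : (0 : ℝ) < m := by exact_mod_cast hm1
          have h3 : (((Finset.Icc 1 N).filter (fun h : ℕ => m ∣ h)).card : ℝ) ≤ N / m := by
            have h4 : (Finset.Icc 1 N).filter (fun h : ℕ => m ∣ h) =
                (Finset.Ioc 0 N).filter (fun h : ℕ => m ∣ h) := by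
              rfl
            rw [h4, Nat.Ioc_filter_dvd_card_eq_div]
            exact Nat.cast_div_le
          have h5 := hcount m N hm1
          have h6 : (m : ℝ) ^ (-1 - δ) = (m : ℝ) ^ (-δ) / m := by
            rw [show (-1 - δ : ℝ) = -δ - 1 by ring, Real.rpow_sub_one hm0.ne']
          calc _ ≤ (C * (N * (m : ℝ) ^ (-δ) + 1)) * (N / m) :=
                mul_le_mul h5 h3 (Nat.cast_nonneg _) (by positivity)
            _ = C * (N : ℝ) ^ 2 * ((m : ℝ) ^ (-δ) / m) + C * N * (1 / m) := by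
                field_simp
            _ ≤ _ := by
                rw [h6]
                have h7 : (1 : ℝ) / m ≤ 1 / (M + 1) := by
                  apply one_div_le_one_div_of_le (by positivity)
                  exact_mod_cast hm.1
                have h8 : C * N * (1 / (m : ℝ)) ≤ C * N * (1 / (M + 1)) :=
                  mul_le_mul_of_nonneg_left h7 (by positivity)
                linarith
    refine h1.trans ?_
    rw [Finset.sum_add_distrib, ← Finset.mul_sum, Finset.sum_const, nsmul_eq_mul]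
    have h2 : ∑ m ∈ Finset.Icc (M + 1) N, (m : ℝ) ^ (-1 - δ) ≤ ε / (4 * C) := by
      have := hs _ (hMs N)
      exact (le_abs_self _).trans this.le
    have h3 : C * (N : ℝ) ^ 2 * ∑ m ∈ Finset.Icc (M + 1) N, (m : ℝ) ^ (-1 - δ) ≤
        ε / 4 * (N : ℝ) ^ 2 := by
      calc _ ≤ C * (N : ℝ) ^ 2 * (ε / (4 * C)) := mul_le_mul_of_nonneg_left h2 (by positivity)
        _ = _ := by field_simp
    have h4 : ((Finset.Icc (M + 1) N).card : ℝ) ≤ N := by
      rw [Nat.card_Icc]
      exact_mod_cast (by omega)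
    have h5 : C * (1 / ((M : ℝ) + 1)) ≤ ε / 4 := by
      rw [div_lt_iff₀ hε] at hM2
      rw [mul_one_div, div_le_iff₀ (by positivity)]
      nlinarith
    have h6 : ((Finset.Icc (M + 1) N).card : ℝ) * (C * N * (1 / (M + 1))) ≤
        ε / 4 * (N : ℝ) ^ 2 := by
      calc ((Finset.Icc (M + 1) N).card : ℝ) * (C * N * (1 / (M + 1)))
          ≤ N * (C * N * (1 / (M + 1))) := mul_le_mul_of_nonneg_right h4 (by positivity)
        _ = (C * (1 / ((M : ℝ) + 1))) * (N : ℝ) ^ 2 := by ring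
        _ ≤ _ := mul_le_mul_of_nonneg_right h5 (by positivity)
    linarith
  have hcard : (((Finset.Icc 1 N ×ˢ Finset.Icc 1 N).filter (fun p => V p.1 p.2)).card : ℝ) ≤
      S0.card + (S1.card + S2.card) := by
    have h1 := Finset.card_le_card hsub
    have h2 := Finset.card_union_le S0 (S1 ∪ S2)
    have h3 := Finset.card_union_le S1 S2
    exact_mod_cast (by omega)
  linarith

end Q247.Vis
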