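import Mathlib

/-! If `m` divides the values of an integer polynomial of degree `d` at `d + 1` distinct integers,
then `m` divides the leading coefficient times the Vandermonde product. -/

set_option autoImplicit false

open Polynomial

namespace Q247.Vis

theorem dvd_det (F : ℤ[X]) (m : ℤ) (x : Fin (F.natDegree + 1) → ℤ)
    (hx : ∀ i, m ∣ F.eval (x i)) : m ∣ (Matrix.vandermonde x).det * F.leadingCoeff := by
  let c : Fin (F.natDegree + 1) → ℤ := fun i => F.coeff i
  have h1 : (Matrix.vandermonde x).mulVec c = fun i => F.eval (x i) := by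
    funext i
    simp only [Matrix.mulVec, dotProduct, Matrix.vandermonde_apply, c]
    rw [Polynomial.eval_eq_sum_range, Finset.sum_range]
    exact Finset.sum_congr rfl fun j _ => mul_comm _ _
  have h2 : (Matrix.vandermonde x).det • c =
      (Matrix.vandermonde x).adjugate.mulVec (fun i => F.eval (x i)) := by
    rw [← h1, Matrix.mulVec_mulVec, Matrix.adjugate_mul, Matrix.smul_mulVec, Matrix.one_mulVec]
  have h3 := congrFun h2 (Fin.last F.natDegree)
  simp only [Pi.smul_apply, smul_eq_mul, Matrix.mulVec, dotProduct, c, Fin.val_last] at h3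
  rw [Polynomial.leadingCoeff, h3]
  exact Finset.dvd_sum fun j _ => Dvd.dvd.mul_left (hx j) _

/-- A set of integers in a short interval on which `m ∣ F` has at most `deg F` elements. -/
theorem card_le_of_short (F : ℤ[X]) (hF : 0 < F.leadingCoeff) (m L : ℕ) (hL1 : 1 ≤ L)
    (hL : F.leadingCoeff * (L : ℤ) ^ ((F.natDegree + 1) * (F.natDegree + 1)) < m)
    (S : Finset ℤ) (b : ℤ) (hS : ∀ x ∈ S, b ≤ x ∧ x ≤ b + L) (hm : ∀ x ∈ S, (m : ℤ) ∣ F.eval x) :
    S.card ≤ F.natDegree := by
  by_contra hcon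
  push Not at hcon
  obtain ⟨T, hTS, hT⟩ := Finset.exists_subset_card_eq (show F.natDegree + 1 ≤ S.card from hcon)
  let x : Fin (F.natDegree + 1) → ℤ := fun i => T.orderEmbOfFin hT i
  have hx : ∀ i, x i ∈ S := fun i => hTS (T.orderEmbOfFin_mem hT i)
  have hmono : StrictMono x := (T.orderEmbOfFin hT).strictMono
  have h1 := dvd_det F m x (fun i => hm _ (hx i))
  rw [Matrix.det_vandermonde] at h1
  have hL1' : (1 : ℤ) ≤ L := by exact_mod_cast hL1
  have hpos' : ∀ i : Fin (F.natDegree + 1), 0 < ∏ j ∈ Finset.Ioi i, (x j - x i) := by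
    intro i
    refine Finset.prod_pos fun j hj => ?_
    rw [Finset.mem_Ioi] at hj
    exact sub_pos.2 (hmono hj)
  have hpos : 0 < ∏ i : Fin (F.natDegree + 1), ∏ j ∈ Finset.Ioi i, (x j - x i) :=
    Finset.prod_pos fun i _ => hpos' i
  have hle : ∏ i : Fin (F.natDegree + 1), ∏ j ∈ Finset.Ioi i, (x j - x i) ≤
      (L : ℤ) ^ ((F.natDegree + 1) * (F.natDegree + 1)) := by
    have h2 : ∀ i : Fin (F.natDegree + 1), ∏ j ∈ Finset.Ioi i, (x j - x i) ≤
        (L : ℤ) ^ (F.natDegree + 1) := by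
      intro i
      have h3 : ∏ j ∈ Finset.Ioi i, (x j - x i) ≤ ∏ _j ∈ Finset.Ioi i, (L : ℤ) := by
        refine Finset.prod_le_prod (fun j hj => ?_) (fun j hj => ?_)
        · rw [Finset.mem_Ioi] at hj
          exact (sub_pos.2 (hmono hj)).le
        · have h4 := hS _ (hx i)
          have h5 := hS _ (hx j)
          omega
      refine h3.trans ?_
      rw [Finset.prod_const]
      refine pow_le_pow_right₀ hL1' ?_
      refine (Finset.card_le_univ _).trans ?_
      simp
    calc ∏ i : Fin (F.natDegree + 1), ∏ j ∈ Finset.Ioi i, (x j - x i)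
        ≤ ∏ _i : Fin (F.natDegree + 1), (L : ℤ) ^ (F.natDegree + 1) :=
          Finset.prod_le_prod (fun i _ => (hpos' i).le) (fun i _ => h2 i)
      _ = (L : ℤ) ^ ((F.natDegree + 1) * (F.natDegree + 1)) := by
          rw [Finset.prod_const, ← pow_mul, Finset.card_univ, Fintype.card_fin]
  have h4 := Int.le_of_dvd (mul_pos hpos hF) h1
  have h5 : (∏ i : Fin (F.natDegree + 1), ∏ j ∈ Finset.Ioi i, (x j - x i)) * F.leadingCoeff ≤
      (L : ℤ) ^ ((F.natDegree + 1) * (F.natDegree + 1)) * F.leadingCoeff :=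
    mul_le_mul_of_nonneg_right hle hF.le
  rw [mul_comm] at hL
  omega

/-- Counting in `[1, N]`. -/
theorem count_le (F : ℤ[X]) (hF : 0 < F.leadingCoeff) (m L : ℕ) (hL1 : 1 ≤ L)
    (hL : F.leadingCoeff * (L : ℤ) ^ ((F.natDegree + 1) * (F.natDegree + 1)) < m) (N : ℕ) :
    ((Finset.Icc 1 N).filter (fun a : ℕ => (m : ℤ) ∣ F.eval (a : ℤ))).card ≤
      (N / L + 1) * F.natDegree := by
  have h1 : ((Finset.Icc 1 N).filter (fun a : ℕ => (m : ℤ) ∣ F.eval (a : ℤ))) ⊆
      (Finset.range (N / L + 1)).biUnion fun b =>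
        (Finset.Ico (b * L) (b * L + L)).filter (fun a : ℕ => (m : ℤ) ∣ F.eval (a : ℤ)) := by
    intro a ha
    rw [Finset.mem_filter, Finset.mem_Icc] at ha
    rw [Finset.mem_biUnion]
    refine ⟨a / L, ?_, ?_⟩
    · rw [Finset.mem_range]
      have := Nat.div_le_div_right (c := L) ha.1.2
      omega
    · rw [Finset.mem_filter, Finset.mem_Ico]
      refine ⟨⟨Nat.div_mul_le_self a L, ?_⟩, ha.2⟩
      have := Nat.lt_div_mul_add (a := a) (b := L) (by omega)
      exact this
  refine (Finset.card_le_card h1).trans ?_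
  refine Finset.card_biUnion_le.trans ?_
  calc ∑ b ∈ Finset.range (N / L + 1),
        ((Finset.Ico (b * L) (b * L + L)).filter (fun a : ℕ => (m : ℤ) ∣ F.eval (a : ℤ))).card
      ≤ ∑ _b ∈ Finset.range (N / L + 1), F.natDegree := by
        refine Finset.sum_le_sum fun b _ => ?_
        have h2 := card_le_of_short F hF m L hL1 hL
          (((Finset.Ico (b * L) (b * L + L)).filter
            (fun a : ℕ => (m : ℤ) ∣ F.eval (a : ℤ))).map ⟨fun a : ℕ => (a : ℤ), Nat.cast_injective⟩)
          ((b * L : ℕ) : ℤ) ?_ ?_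
        · rwa [Finset.card_map] at h2
        · intro x hx
          rw [Finset.mem_map] at hx
          obtain ⟨a, ha, rfl⟩ := hx
          rw [Finset.mem_filter, Finset.mem_Ico] at ha
          simp only [Function.Embedding.coeFn_mk]
          omega
        · intro x hx
          rw [Finset.mem_map] at hx
          obtain ⟨a, ha, rfl⟩ := hx
          rw [Finset.mem_filter] at ha
          exact ha.2
    _ = (N / L + 1) * F.natDegree := by
        rw [Finset.sum_const, Finset.card_range, smul_eq_mul]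

/-- Real form: the number of `a ≤ N` with `m ∣ F(a)` is at most `C (N m^(-δ) + 1)`. -/
theorem count_real (F : ℤ[X]) (hF : 0 < F.leadingCoeff) :
    ∃ C δ : ℝ, 0 < C ∧ 0 < δ ∧ ∀ m N : ℕ, 1 ≤ m →
      (((Finset.Icc 1 N).filter (fun a : ℕ => (m : ℤ) ∣ F.eval (a : ℤ))).card : ℝ) ≤
        C * (N * (m : ℝ) ^ (-δ) + 1) := by
  set d := F.natDegree with hd
  set D : ℕ := (d + 1) * (d + 1) with hD
  have hD0 : (0 : ℝ) < D := by
    rw [hD]; positivity
  set l : ℝ := (F.leadingCoeff : ℝ) with hl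
  have hl1 : (1 : ℝ) ≤ l := by
    rw [hl]; exact_mod_cast hF
  set δ : ℝ := 1 / D with hδ
  have hδ0 : 0 < δ := by rw [hδ]; positivity
  set C : ℝ := 2 * (d + 1) * (2 * l) ^ δ with hC
  have h2l : (1 : ℝ) ≤ (2 * l) ^ δ := Real.one_le_rpow (by linarith) hδ0.le
  have hC0 : 0 < C := by rw [hC]; positivity
  refine ⟨C, δ, hC0, hδ0, fun m N hm => ?_⟩
  have hm0 : (0 : ℝ) < m := by exact_mod_cast hm
  set y : ℝ := ((m : ℝ) / (2 * l)) ^ δ with hy
  have hy0 : 0 < y := by rw [hy]; positivity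
  have hyinv : 1 / y = (2 * l) ^ δ * (m : ℝ) ^ (-δ) := by
    rw [hy, Real.div_rpow hm0.le (by positivity), Real.rpow_neg hm0.le]
    field_simp
  have hyD : y ^ D = m / (2 * l) := by
    rw [hy, ← Real.rpow_natCast, ← Real.rpow_mul (by positivity), hδ,
      one_div_mul_cancel hD0.ne', Real.rpow_one]
  rcases lt_or_ge y 1 with hy1 | hy1
  · have h1 : (((Finset.Icc 1 N).filter (fun a : ℕ => (m : ℤ) ∣ F.eval (a : ℤ))).card : ℝ) ≤ N := by
      have := Finset.card_filter_le (Finset.Icc 1 N) (fun a : ℕ => (m : ℤ) ∣ F.eval (a : ℤ))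
      rw [Nat.card_Icc] at this
      exact_mod_cast (by omega)
    refine h1.trans ?_
    have h2 : 1 ≤ 1 / y := by rw [le_div_iff₀ hy0]; linarith
    rw [hyinv] at h2
    have hN : (0 : ℝ) ≤ N := Nat.cast_nonneg _
    calc (N : ℝ) = N * 1 := by ring
      _ ≤ N * ((2 * l) ^ δ * (m : ℝ) ^ (-δ)) := mul_le_mul_of_nonneg_left h2 hN
      _ = 1 * ((2 * l) ^ δ) * (N * (m : ℝ) ^ (-δ)) := by ring
      _ ≤ C * (N * (m : ℝ) ^ (-δ)) := by
          refine mul_le_mul_of_nonneg_right ?_ (by positivity)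
          rw [hC]
          refine mul_le_mul_of_nonneg_right ?_ (by positivity)
          have : (0 : ℝ) ≤ d := Nat.cast_nonneg _
          linarith
      _ ≤ C * (N * (m : ℝ) ^ (-δ) + 1) := by
          refine mul_le_mul_of_nonneg_left ?_ hC0.le
          linarith
  · set L : ℕ := ⌊y⌋₊ with hLdef
    have hL1 : 1 ≤ L := Nat.le_floor (by simpa using hy1)
    have hLy : (L : ℝ) ≤ y := Nat.floor_le hy0.le
    have hLy2 : y < L + 1 := Nat.lt_floor_add_one y
    have hL2 : y / 2 ≤ L := by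
      have : (1 : ℝ) ≤ L := by exact_mod_cast hL1
      linarith
    have hlt : F.leadingCoeff * (L : ℤ) ^ ((F.natDegree + 1) * (F.natDegree + 1)) < m := by
      have h1 : l * (L : ℝ) ^ D < m := by
        calc l * (L : ℝ) ^ D ≤ l * y ^ D :=
              mul_le_mul_of_nonneg_left (pow_le_pow_left₀ (Nat.cast_nonneg _) hLy D) (by linarith)
          _ = m / 2 := by rw [hyD]; field_simp
          _ < m := by linarith
      rw [hl, hD, hd] at h1
      exact_mod_cast h1
    have h3 := count_le F hF m L hL1 hlt N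
    have h4 : (((Finset.Icc 1 N).filter (fun a : ℕ => (m : ℤ) ∣ F.eval (a : ℤ))).card : ℝ) ≤
        ((N / L : ℕ) + 1) * d := by exact_mod_cast h3
    refine h4.trans ?_
    have hL0 : (0 : ℝ) < L := by exact_mod_cast hL1
    have h5 : ((N / L : ℕ) : ℝ) ≤ N / L := Nat.cast_div_le
    have h6 : (N : ℝ) / L ≤ N * (2 * (1 / y)) := by
      rw [div_eq_mul_inv]
      refine mul_le_mul_of_nonneg_left ?_ (Nat.cast_nonneg _)
      rw [mul_one_div, inv_le_comm₀ hL0 (by positivity)]
      rw [inv_div]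
      exact hL2
    rw [hyinv] at h6
    have hd0 : (0 : ℝ) ≤ d := Nat.cast_nonneg _
    calc (((N / L : ℕ) : ℝ) + 1) * d ≤ (N * (2 * ((2 * l) ^ δ * (m : ℝ) ^ (-δ))) + 1) * d :=
          mul_le_mul_of_nonneg_right (by linarith) hd0
      _ ≤ (N * (2 * ((2 * l) ^ δ * (m : ℝ) ^ (-δ))) + 1) * (d + 1) :=
          mul_le_mul_of_nonneg_left (by linarith) (by positivity)
      _ ≤ C * (N * (m : ℝ) ^ (-δ)) + C * 1 := by
          have e1 : (N * (2 * ((2 * l) ^ δ * (m : ℝ) ^ (-δ)))) * ((d : ℝ) + 1) =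
              C * (N * (m : ℝ) ^ (-δ)) := by rw [hC]; ring
          have e2 : (1 : ℝ) * ((d : ℝ) + 1) ≤ C * 1 := by
            rw [hC]
            nlinarith
          rw [add_mul, e1]
          linarith
      _ = C * (N * (m : ℝ) ^ (-δ) + 1) := by ring

end Q247.Vis
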